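import Mathlib
import Pool.Agent.W526.LL.Stm

/-! LL-ISO: two irreducible representations with Steinberg vectors are isomorphic. -/

namespace Pool.Agent.W544.LL.Iso

open Pool.Agent.W526.LL
open IsDedekindDomain WithZero Polynomial Topology

/-- The product of two representations. -/
noncomputable def prodRep {G V W : Type} [Group G] [AddCommGroup V] [Module ℂ V]
    [AddCommGroup W] [Module ℂ W] (ρ : Representation ℂ G V) (σ : Representation ℂ G W) :
    Representation ℂ G (V × W) where
  toFun g := (ρ g).prodMap (σ g)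
  map_one' := by
    rw [map_one, map_one]
    ext x <;> simp
  map_mul' a b := by
    rw [map_mul, map_mul]
    ext x <;> simp

theorem prodRep_apply {G V W : Type} [Group G] [AddCommGroup V] [Module ℂ V]
    [AddCommGroup W] [Module ℂ W] (ρ : Representation ℂ G V) (σ : Representation ℂ G W)
    (g : G) (x : V × W) : prodRep ρ σ g x = (ρ g x.1, σ g x.2) := rfl

theorem bigSpan_inv {G V : Type} [Group G] [AddCommGroup V] [Module ℂ V]
    (ρ : Representation ℂ G V) (y : V) (g : G) {v : V}
    (hv : v ∈ bigSpan ρ {LinearMap.id} y) : ρ g v ∈ bigSpan ρ {LinearMap.id} y := by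
  unfold bigSpan at hv ⊢
  induction hv using Submodule.span_induction with
  | mem x hx =>
    obtain ⟨A, hA, h, rfl⟩ := hx
    rw [Set.mem_singleton_iff] at hA
    subst hA
    refine Submodule.subset_span ⟨LinearMap.id, rfl, g * h, ?_⟩
    simp [map_mul]
  | zero => rw [map_zero]; exact Submodule.zero_mem _
  | add x z _ _ hx hz => rw [map_add]; exact Submodule.add_mem _ hx hz
  | smul a x _ hx => rw [map_smul]; exact Submodule.smul_mem _ _ hx

theorem base_mem {G V : Type} [Group G] [AddCommGroup V] [Module ℂ V]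
    (ρ : Representation ℂ G V) (y : V) : y ∈ bigSpan ρ {LinearMap.id} y := by
  refine Submodule.subset_span ⟨LinearMap.id, rfl, 1, ?_⟩
  simp

theorem main (hC : S_C) (_hopen : S_open) : S_iso := by
  intro F _ _ D τ σ y y' hy hy' hSt hSt'
  set ρ : Representation ℂ (GL (Fin 2) F) (τ.V × σ.V) := prodRep τ.ρ σ.ρ with hρ
  have hY : IsSt D ρ (y, y') := by
    refine ⟨?_, ?_, ?_⟩
    · intro k hk
      rw [hρ, prodRep_apply, hSt.iw k hk, hSt'.iw k hk]
    · rw [hρ, prodRep_apply, hSt.w, hSt'.w]
      rfl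
    · have h1 := hSt.har
      have h2 := hSt'.har
      ext
      · rw [hρ]
        simp only [prodRep_apply, Prod.fst_add, Prod.fst_sum, Prod.fst_zero]
        exact h1
      · rw [hρ]
        simp only [prodRep_apply, Prod.snd_add, Prod.snd_sum, Prod.snd_zero]
        exact h2
  obtain ⟨-, hIw, -, -⟩ := hC F D (τ.V × σ.V) ρ (y, y') hY {LinearMap.id}
    (by intro A hA g v; rw [Set.mem_singleton_iff] at hA; subst hA; rfl)
  set X := bigSpan ρ {LinearMap.id} (y, y') with hX
  have hXinv : ∀ g, ∀ v ∈ X, ρ g v ∈ X := fun g v hv => bigSpan_inv ρ (y, y') g hv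
  have hYX : (y, y') ∈ X := base_mem ρ (y, y')
  have hIw' : ∀ x ∈ X, (∀ k ∈ Iw F, ρ k x = x) → ∃ c : ℂ, c • (y, y') = x := by
    intro x hx hk
    have := hIw x hx hk
    have hs : {v : τ.V × σ.V | ∃ A ∈ ({LinearMap.id} : Set ((τ.V × σ.V) →ₗ[ℂ] (τ.V × σ.V))),
        v = A (y, y')} = {(y, y')} := by
      ext v
      simp
    rw [hs, Submodule.mem_span_singleton] at this
    exact this
  -- the two kernels
  have hP1 : ∀ v : τ.V, (v, (0 : σ.V)) ∈ X → v = 0 := by
    set P : Submodule ℂ τ.V := X.comap (LinearMap.inl ℂ τ.V σ.V) with hP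
    have hinv : ∀ g, ∀ v ∈ P, τ.ρ g v ∈ P := by
      intro g v hv
      rw [hP, Submodule.mem_comap] at hv ⊢
      have := hXinv g _ hv
      rw [hρ, prodRep_apply] at this
      simpa using this
    rcases τ.irr.2 P hinv with h | h
    · intro v hv
      have : v ∈ P := hv
      rw [h] at this
      simpa using this
    · exfalso
      have hyP : y ∈ P := by rw [h]; trivial
      have hyX : (y, (0 : σ.V)) ∈ X := hyP
      obtain ⟨c, hc⟩ := hIw' _ hyX (by
        intro k hk
        rw [hρ, prodRep_apply]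
        simp [hSt.iw k hk])
      have h1 : c • y = y := congrArg Prod.fst hc
      have h2 : c • y' = 0 := congrArg Prod.snd hc
      rcases smul_eq_zero.mp h2 with h3 | h3
      · rw [h3, zero_smul] at h1
        exact hy h1.symm
      · exact hy' h3
  have hP2 : ∀ v : σ.V, ((0 : τ.V), v) ∈ X → v = 0 := by
    set P : Submodule ℂ σ.V := X.comap (LinearMap.inr ℂ τ.V σ.V) with hP
    have hinv : ∀ g, ∀ v ∈ P, σ.ρ g v ∈ P := by
      intro g v hv
      rw [hP, Submodule.mem_comap] at hv ⊢
      have := hXinv g _ hv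
      rw [hρ, prodRep_apply] at this
      simpa using this
    rcases σ.irr.2 P hinv with h | h
    · intro v hv
      have : v ∈ P := hv
      rw [h] at this
      simpa using this
    · exfalso
      have hyP : y' ∈ P := by rw [h]; trivial
      have hyX : ((0 : τ.V), y') ∈ X := hyP
      obtain ⟨c, hc⟩ := hIw' _ hyX (by
        intro k hk
        rw [hρ, prodRep_apply]
        simp [hSt'.iw k hk])
      have h1 : c • y = 0 := congrArg Prod.fst hc
      have h2 : c • y' = y' := congrArg Prod.snd hc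
      rcases smul_eq_zero.mp h1 with h3 | h3
      · rw [h3, zero_smul] at h2
        exact hy' h2.symm
      · exact hy h3
  -- the two projections
  let f1 : X →ₗ[ℂ] τ.V := (LinearMap.fst ℂ τ.V σ.V).comp X.subtype
  let f2 : X →ₗ[ℂ] σ.V := (LinearMap.snd ℂ τ.V σ.V).comp X.subtype
  have hf1 : ∀ x : X, f1 x = (x : τ.V × σ.V).1 := fun _ => rfl
  have hf2 : ∀ x : X, f2 x = (x : τ.V × σ.V).2 := fun _ => rfl
  have i1 : Function.Injective f1 := by
    rw [← LinearMap.ker_eq_bot, LinearMap.ker_eq_bot']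
    intro x hx
    rw [hf1] at hx
    have hx' : ((0 : τ.V), (x : τ.V × σ.V).2) ∈ X := by
      have := x.2
      rwa [← hx]
    have h2 := hP2 _ hx'
    apply Subtype.ext
    exact Prod.ext hx h2
  have i2 : Function.Injective f2 := by
    rw [← LinearMap.ker_eq_bot, LinearMap.ker_eq_bot']
    intro x hx
    rw [hf2] at hx
    have hx' : ((x : τ.V × σ.V).1, (0 : σ.V)) ∈ X := by
      have := x.2
      rwa [← hx]
    have h2 := hP1 _ hx'
    apply Subtype.ext
    exact Prod.ext h2 hx
  have s1 : Function.Surjective f1 := by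
    rw [← LinearMap.range_eq_top]
    rcases τ.irr.2 (LinearMap.range f1) (by
      rintro g v ⟨x, rfl⟩
      exact ⟨⟨ρ g x, hXinv g x x.2⟩, rfl⟩) with h | h
    · exfalso
      have : y ∈ LinearMap.range f1 := ⟨⟨(y, y'), hYX⟩, rfl⟩
      rw [h] at this
      exact hy (by simpa using this)
    · exact h
  have s2 : Function.Surjective f2 := by
    rw [← LinearMap.range_eq_top]
    rcases σ.irr.2 (LinearMap.range f2) (by
      rintro g v ⟨x, rfl⟩
      exact ⟨⟨ρ g x, hXinv g x x.2⟩, rfl⟩) with h | h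
    · exfalso
      have : y' ∈ LinearMap.range f2 := ⟨⟨(y, y'), hYX⟩, rfl⟩
      rw [h] at this
      exact hy' (by simpa using this)
    · exact h
  let e1 : X ≃ₗ[ℂ] τ.V := LinearEquiv.ofBijective f1 ⟨i1, s1⟩
  let e2 : X ≃ₗ[ℂ] σ.V := LinearEquiv.ofBijective f2 ⟨i2, s2⟩
  refine ⟨e1.symm.trans e2, fun g v => ?_⟩
  obtain ⟨x, rfl⟩ := e1.surjective v
  have h1 : τ.ρ g (e1 x) = e1 ⟨ρ g x, hXinv g x x.2⟩ := rfl
  rw [h1, LinearEquiv.trans_apply, LinearEquiv.trans_apply, LinearEquiv.symm_apply_apply,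
    LinearEquiv.symm_apply_apply]
  rfl

end Pool.Agent.W544.LL.Iso
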